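import Mathlib
import Pool.Agent.H81.XRay.Final

/-!
# MP_dd0508_gt, Q1 for convex bodies with a corner

Let `K` be a convex body in the plane that has a corner, i.e. a point `v` of `K` through which two
different supporting lines of `K` pass.  Then `K` is verified among measurable sets by three X-rays:
those in the directions of the two supporting lines and one more.

Idea of the proof.  Let `s, t ≥ 0` be the two functionals that vanish on the supporting lines and
let `y = s + t`.  For `η` between `0` and the maximum `Y` of `y` on `K` put `Δ y = max (η - y) 0`.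
Let `YL s` be the largest level `y` of a point of `K` whose first coordinate is at most `s`, and let
`BB y` be the largest level of a point of `K` whose first coordinate is at most that of some point
of `K` of level `y`.  Both functions are concave and nondecreasing, and `BB y ≥ lam * y` near `0`
with `lam > 1`.  With `Gam n = Δ + Δ ∘ BB + ... + Δ ∘ BB^(n-1)` (convex, nonincreasing), the function
`f = Gam n ∘ YL` and its mirror image `g` satisfy `f s + g t ≤ G (s + t)` on `K` and `≥` off `K`
(inside the circumscribed triangle), for all levels above `η * lam⁻ⁿ`, where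
`G = Δ + Gam n ∘ BB + Gam' n ∘ BB'`.  The functions are `O(n)`, whereas the part of `K` and
of the competing set below the level `η * lam⁻ⁿ` has area `O(lam⁻²ⁿ)`, because `v` is a corner.
Letting `n` grow gives that the competing set contains almost all of `K`.
-/

set_option autoImplicit false

open MeasureTheory

namespace Pool.Agent.Results.MP_dd0508_gt.CornerBodies

/-- Every planar convex body with a corner is verified among measurable sets by three X-rays. -/
theorem result (K : Set (ℝ × ℝ)) (hc : IsCompact K) (hK : Convex ℝ K)
    (hi : (interior K).Nonempty) (v : ℝ × ℝ) (hv : v ∈ K) (p q : (ℝ × ℝ) →ₗ[ℝ] ℝ)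
    (hpq : LinearIndependent ℝ ![p, q]) (hp : ∀ x ∈ K, p v ≤ p x) (hq : ∀ x ∈ K, q v ≤ q x) :
    ∃ u : Fin 3 → ℝ × ℝ,
      (∀ i j : Fin 3, i ≠ j → LinearIndependent ℝ ![u i, u j]) ∧
      p (u 0) = 0 ∧ q (u 1) = 0 ∧ (p + q) (u 2) = 0 ∧
      ∀ L : Set (ℝ × ℝ), MeasurableSet L →
        (∀ i : Fin 3, ∀ᵐ x ∂(volume : Measure (ℝ × ℝ)),
            (∫⁻ t : ℝ, L.indicator (1 : ℝ × ℝ → ENNReal) (x + t • u i)) =
            (∫⁻ t : ℝ, K.indicator (1 : ℝ × ℝ → ENNReal) (x + t • u i))) →
        L =ᵐ[(volume : Measure (ℝ × ℝ))] K := by
  open Pool.Agent.H81.XRay in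
  refine ⟨dirs p q, dirs_indep (det_ne hpq), ?_, ?_, ?_, ?_⟩
  · rw [form]; simp [dirs]; ring
  · rw [form]; simp [dirs]; ring
  · rw [form]; simp [dirs]; ring
  · intro L hL hx
    exact verified hc hK hi hpq hv hp hq hL hx

end Pool.Agent.Results.MP_dd0508_gt.CornerBodies
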